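import Pool.Agent.helper25.TW.Spec

/-!
# Project TWO, row ANR

From an annulus to one of four rectangles. The path of colour `k` in `til S` from `u` (distance at
most `t` from `x`) to `v` (distance at least `3 t`) contains a part in the box of radius `3 t` which
ends at a site `q` at distance exactly `3 t` (`DP.RHM_hit` for the distance from `x`). One of the two
coordinates of `q` differs from that of `x` by `3 t`, in one of the two directions; the
part between the levels `t` and `3 t` of this coordinate (`DP.RHM_mid`) is the crossing.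
-/

set_option autoImplicit false

namespace TP.TW

open DP MeasureTheory Finset

/-- The part of the path between two levels of a function `f` which changes by at most one. -/
private theorem ANR_part (c : V → Bool) (k : Bool) (W : Set V) (x q u : V) (t : ℕ) (f : V → ℤ)
    (hf : ∀ a b, Adj a b → f b ≤ f a + 1) (hu : f u ≤ t) (hq : 3 * (t : ℤ) ≤ f q)
    (h : Con ({w | w ∈ W ∧ c w = k} ∩ {z | (sd x z : ℤ) ≤ 3 * (t : ℤ)}) u q) :
    ∃ p r, f p = t ∧ f r = 3 * (t : ℤ) ∧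
      Con {w | (w ∈ W ∧ c w = k) ∧ (sd x w : ℤ) ≤ 3 * (t : ℤ) ∧ (t : ℤ) ≤ f w ∧ f w ≤ 3 * (t : ℤ)} p r := by
  obtain ⟨p, r, hp, hr, h1⟩ := RHM_mid f hf (t : ℤ) (3 * (t : ℤ)) (by omega) h hu hq
  refine ⟨p, r, hp, hr, h1.mono ?_⟩
  rintro z ⟨⟨hz1, hz2⟩, hz3, hz4⟩
  exact ⟨hz1, hz2, hz3, hz4⟩

private theorem ANR_sd (x z : V) (n : ℤ) (h : (sd x z : ℤ) ≤ n) :
    x.1 - n ≤ z.1 ∧ z.1 ≤ x.1 + n ∧ x.2 - n ≤ z.2 ∧ z.2 ≤ x.2 + n := by
  unfold sd at h
  omega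

theorem ANR : ANR_stmt := by
  rintro c k S x t ht ⟨u, v, hu, hv, h⟩
  obtain ⟨q, hq, h1⟩ := RHM_hit (fun z => (sd x z : ℤ))
    (fun a b hab => by have := hab.sd_le' x; show (sd x b : ℤ) ≤ (sd x a : ℤ) + 1; omega)
    (3 * (t : ℤ)) h (by show (sd x u : ℤ) ≤ 3 * (t : ℤ); omega)
    (by show 3 * (t : ℤ) ≤ (sd x v : ℤ); omega)
  have hq' : (sd x q : ℤ) = 3 * (t : ℤ) := hq
  have hub := ANR_sd x u t (by omega)
  have hcase : q.2 = x.2 + 3 * t ∨ q.2 = x.2 - 3 * t ∨ q.1 = x.1 + 3 * t ∨ q.1 = x.1 - 3 * t := by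
    unfold sd at hq'
    omega
  rcases hcase with hc | hc | hc | hc
  · left
    obtain ⟨p, r, hp, hr, h2⟩ := ANR_part c k (til S) x q u t (fun z => z.2 - x.2)
      (fun a b hab => by rw [adj_iff] at hab; show b.2 - x.2 ≤ a.2 - x.2 + 1; omega)
      (by show u.2 - x.2 ≤ t; omega) (by show 3 * (t : ℤ) ≤ q.2 - x.2; omega) h1
    have hp' : p.2 - x.2 = t := hp
    have hr' : r.2 - x.2 = 3 * (t : ℤ) := hr
    refine ⟨p, r, by simp only [if_true]; omega, Con.mono ?_ h2⟩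
    rintro z ⟨⟨hz1, hz2⟩, hz3, hz4, hz5⟩
    have hb := ANR_sd x z _ hz3
    have hz4' : (t : ℤ) ≤ z.2 - x.2 := hz4
    have hz5' : z.2 - x.2 ≤ 3 * (t : ℤ) := hz5
    exact ⟨⟨⟨by omega, by omega, by omega, by omega⟩, hz1⟩, hz2⟩
  · right; left
    obtain ⟨p, r, hp, hr, h2⟩ := ANR_part c k (til S) x q u t (fun z => x.2 - z.2)
      (fun a b hab => by rw [adj_iff] at hab; show x.2 - b.2 ≤ x.2 - a.2 + 1; omega)
      (by show x.2 - u.2 ≤ t; omega) (by show 3 * (t : ℤ) ≤ x.2 - q.2; omega) h1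
    have hp' : x.2 - p.2 = t := hp
    have hr' : x.2 - r.2 = 3 * (t : ℤ) := hr
    refine ⟨r, p, by simp only [if_true]; omega, Con.mono ?_ h2.symm⟩
    rintro z ⟨⟨hz1, hz2⟩, hz3, hz4, hz5⟩
    have hb := ANR_sd x z _ hz3
    have hz4' : (t : ℤ) ≤ x.2 - z.2 := hz4
    have hz5' : x.2 - z.2 ≤ 3 * (t : ℤ) := hz5
    exact ⟨⟨⟨by omega, by omega, by omega, by omega⟩, hz1⟩, hz2⟩
  · right; right; left
    obtain ⟨p, r, hp, hr, h2⟩ := ANR_part c k (til S) x q u t (fun z => z.1 - x.1)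
      (fun a b hab => by rw [adj_iff] at hab; show b.1 - x.1 ≤ a.1 - x.1 + 1; omega)
      (by show u.1 - x.1 ≤ t; omega) (by show 3 * (t : ℤ) ≤ q.1 - x.1; omega) h1
    have hp' : p.1 - x.1 = t := hp
    have hr' : r.1 - x.1 = 3 * (t : ℤ) := hr
    refine ⟨p, r, by simp only [Bool.false_eq_true, if_false]; omega, Con.mono ?_ h2⟩
    rintro z ⟨⟨hz1, hz2⟩, hz3, hz4, hz5⟩
    have hb := ANR_sd x z _ hz3
    have hz4' : (t : ℤ) ≤ z.1 - x.1 := hz4
    have hz5' : z.1 - x.1 ≤ 3 * (t : ℤ) := hz5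
    exact ⟨⟨⟨by omega, by omega, by omega, by omega⟩, hz1⟩, hz2⟩
  · right; right; right
    obtain ⟨p, r, hp, hr, h2⟩ := ANR_part c k (til S) x q u t (fun z => x.1 - z.1)
      (fun a b hab => by rw [adj_iff] at hab; show x.1 - b.1 ≤ x.1 - a.1 + 1; omega)
      (by show x.1 - u.1 ≤ t; omega) (by show 3 * (t : ℤ) ≤ x.1 - q.1; omega) h1
    have hp' : x.1 - p.1 = t := hp
    have hr' : x.1 - r.1 = 3 * (t : ℤ) := hr
    refine ⟨r, p, by simp only [Bool.false_eq_true, if_false]; omega, Con.mono ?_ h2.symm⟩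
    rintro z ⟨⟨hz1, hz2⟩, hz3, hz4, hz5⟩
    have hb := ANR_sd x z _ hz3
    have hz4' : (t : ℤ) ≤ x.1 - z.1 := hz4
    have hz5' : x.1 - z.1 ≤ 3 * (t : ℤ) := hz5
    exact ⟨⟨⟨by omega, by omega, by omega, by omega⟩, hz1⟩, hz2⟩

end TP.TW
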