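import Pool.Agent.helper25.TW.Spec2

/-!
# Project TWO, row LEV

Every level `t ≤ m ≤ 3 t` of the distance from `x` is visited by the path, near a disc of the Vitali
family; a disc serves at most `7 · 2 ^ h i` levels.
-/

set_option autoImplicit false

namespace TP.TW

open DP MeasureTheory Finset

private theorem LEV_one (R : ℕ) (S I : Finset V) (h : V → ℕ) (c : V → Bool) (k : Bool) (x : V) (t m : ℕ)
    (hV : Vit R S I h) (hm : m ≤ 2 * t) (hS : SR c k S x t) :
    ∃ i, i ∈ I ∧ sd x i ≤ 3 * t + 3 * 2 ^ h i ∧ TCH c k S i (h i) t ∧ m + t ≤ sd x i + 3 * 2 ^ h i ∧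
      sd x i ≤ m + t + 3 * 2 ^ h i := by
  obtain ⟨u, v, hu, hv, hc⟩ := hS
  obtain ⟨y, hy, hcy⟩ := RHM_hit (fun z => (sd x z : ℤ))
    (fun a b hab => by have := hab.sd_le' x; show (sd x b : ℤ) ≤ (sd x a : ℤ) + 1; omega)
    ((m + t : ℕ) : ℤ) hc (by show (sd x u : ℤ) ≤ ((m + t : ℕ) : ℤ); omega)
    (by show ((m + t : ℕ) : ℤ) ≤ (sd x v : ℤ); omega)
  have hy' : (sd x y : ℤ) = ((m + t : ℕ) : ℤ) := hy
  have hc1 : Con {w | w ∈ til S ∧ c w = k} u y := hcy.mono Set.inter_subset_left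
  have hyS : br y ∈ S := hc1.mem_right.1
  obtain ⟨i, hi, hd⟩ := hV.1 (br y) hyS
  have hH : 1 ≤ 2 ^ h i := Nat.one_le_two_pow
  have e1 := sd_br_le y
  have e2 := sd_triangle i (br y) y
  rw [sd_comm i (br y), sd_comm (br y) y] at e2
  have hiy : sd i y ≤ 3 * 2 ^ h i := by omega
  have e3 := sd_triangle x y i
  have e4 := sd_triangle x i y
  rw [sd_comm y i] at e3
  refine ⟨i, hi, by omega, ?_, by omega, by omega⟩
  have e5 := sd_triangle x u v
  have e6 := sd_triangle u y v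
  by_cases hfar : t ≤ sd y u
  · exact ⟨y, u, hiy, hfar, hc1.symm⟩
  · refine ⟨y, v, hiy, ?_, hc1.symm.trans hc⟩
    rw [sd_comm u y] at e6
    omega

theorem LEV : LEV_stmt := by
  classical
  intro R S I h c k x t ht hV hS
  have hex : ∀ m : ℕ, ∃ i, m ≤ 2 * t → (i ∈ I ∧ sd x i ≤ 3 * t + 3 * 2 ^ h i ∧ TCH c k S i (h i) t ∧
      m + t ≤ sd x i + 3 * 2 ^ h i ∧ sd x i ≤ m + t + 3 * 2 ^ h i) := by
    intro m
    by_cases hm : m ≤ 2 * t
    · obtain ⟨i, hi⟩ := LEV_one R S I h c k x t m hV hm hS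
      exact ⟨i, fun _ => hi⟩
    · exact ⟨x, fun h => absurd h hm⟩
  choose f hf using hex
  have hmem : ∀ i ∈ (range (2 * t + 1)).image f, i ∈ I ∧ sd x i ≤ 3 * t + 3 * 2 ^ h i ∧ TCH c k S i (h i) t := by
    intro i hi
    obtain ⟨m, hm, rfl⟩ := Finset.mem_image.1 hi
    rw [Finset.mem_range] at hm
    obtain ⟨h1, h2, h3, -⟩ := hf m (by omega)
    exact ⟨h1, h2, h3⟩
  refine ⟨(range (2 * t + 1)).image f, fun i hi => (hmem i hi).1, fun i hi => (hmem i hi).2, ?_⟩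
  have hcard := Finset.card_eq_sum_card_image f (range (2 * t + 1))
  rw [Finset.card_range] at hcard
  have hle : ∑ i ∈ (range (2 * t + 1)).image f, #{m ∈ range (2 * t + 1) | f m = i} ≤
      ∑ i ∈ (range (2 * t + 1)).image f, 7 * 2 ^ h i := by
    apply Finset.sum_le_sum
    intro i _
    have hsub : (range (2 * t + 1)).filter (fun m => f m = i) ⊆
        Icc (sd x i - (3 * 2 ^ h i + t)) (sd x i + 3 * 2 ^ h i - t) := by
      intro m hm
      obtain ⟨h1, h2⟩ := Finset.mem_filter.1 hm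
      rw [Finset.mem_range] at h1
      obtain ⟨-, -, -, h3, h4⟩ := hf m (by omega)
      rw [h2] at h3 h4
      rw [Finset.mem_Icc]
      omega
    have hc := Finset.card_le_card hsub
    rw [Nat.card_Icc] at hc
    have hH : 1 ≤ 2 ^ h i := Nat.one_le_two_pow
    omega
  rw [← Finset.mul_sum] at hle
  omega

end TP.TW
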