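import Pool.Agent.helper25.TW.Spec2

/-!
# Project TWO, row DBL

Double counting of the pairs of a site `v₀` and a disc `i` at scale `2 ^ s`.
-/

set_option autoImplicit false

namespace TP.TW

open DP MeasureTheory Finset

/-- For fixed `i, s, p, q`: the number of the points `v₀`. -/
private theorem DBL_cnt (G : Finset V) (i : V) (a s : ℕ) (p q : ℤ) (hp : p ∈ Icc (-400 : ℤ) 400)
    (hq : q ∈ Icc (-400 : ℤ) 400) (hG : ∀ v₀ ∈ G, 512 * 2 ^ a < sd v₀ i) :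
    (#(G.filter fun v₀ => sd (v₀.1 + 2 ^ s * p, v₀.2 + 2 ^ s * q) i ≤ 3 * 2 ^ s + 3 * 2 ^ a) : ℝ) ≤
      if a < s then 169 * (4 : ℝ) ^ s else 0 := by
  obtain ⟨p1, p2⟩ := Finset.mem_Icc.1 hp
  obtain ⟨q1, q2⟩ := Finset.mem_Icc.1 hq
  obtain ⟨T, hT⟩ : ∃ T : ℕ, T = 2 ^ s := ⟨_, rfl⟩
  have hTz : (2 : ℤ) ^ s = (T : ℤ) := by rw [hT]; push_cast; ring
  have hT1 : 1 ≤ T := by rw [hT]; exact Nat.one_le_two_pow
  obtain ⟨A, hA⟩ : ∃ A : ℕ, A = 2 ^ a := ⟨_, rfl⟩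
  have hA1 : 1 ≤ A := by rw [hA]; exact Nat.one_le_two_pow
  obtain ⟨X, hX⟩ : ∃ X : ℤ, X = (T : ℤ) * p := ⟨_, rfl⟩
  obtain ⟨Y, hY⟩ : ∃ Y : ℤ, Y = (T : ℤ) * q := ⟨_, rfl⟩
  have hX1 : -(400 * (T : ℤ)) ≤ X ∧ X ≤ 400 * (T : ℤ) := by
    rw [hX]; constructor <;> nlinarith
  have hY1 : -(400 * (T : ℤ)) ≤ Y ∧ Y ≤ 400 * (T : ℤ) := by
    rw [hY]; constructor <;> nlinarith
  rw [hTz, ← hX, ← hY, ← hT, ← hA]
  rw [← hA] at hG
  by_cases has : a < s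
  · rw [if_pos has]
    have hAT : A ≤ T := by rw [hA, hT]; exact Nat.pow_le_pow_right (by norm_num) has.le
    have hsub : (G.filter fun v₀ => sd (v₀.1 + X, v₀.2 + Y) i ≤ 3 * T + 3 * A) ⊆
        Icc (i.1 - X - 6 * (T : ℤ)) (i.1 - X + 6 * (T : ℤ)) ×ˢ Icc (i.2 - Y - 6 * (T : ℤ)) (i.2 - Y + 6 * (T : ℤ)) := by
      intro v hv
      have h1 := (Finset.mem_filter.1 hv).2
      have h2 : max (v.1 + X - i.1).natAbs (v.2 + Y - i.2).natAbs ≤ 3 * T + 3 * A := h1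
      rw [Finset.mem_product, Finset.mem_Icc, Finset.mem_Icc]
      refine ⟨⟨?_, ?_⟩, ?_, ?_⟩ <;> omega
    have hc := Finset.card_le_card hsub
    rw [Finset.card_product, Int.card_Icc, Int.card_Icc,
      show (i.1 - X + 6 * (T : ℤ) + 1 - (i.1 - X - 6 * (T : ℤ))).toNat = 12 * T + 1 by omega,
      show (i.2 - Y + 6 * (T : ℤ) + 1 - (i.2 - Y - 6 * (T : ℤ))).toNat = 12 * T + 1 by omega] at hc
    have hc2 : (12 * T + 1) * (12 * T + 1) ≤ 169 * (T * T) := by nlinarith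
    have hc3 : (#(G.filter fun v₀ => sd (v₀.1 + X, v₀.2 + Y) i ≤ 3 * T + 3 * A) : ℝ) ≤ ((169 * (T * T) : ℕ) : ℝ) := by
      exact_mod_cast hc.trans hc2
    refine hc3.trans (le_of_eq ?_)
    rw [hT]
    push_cast
    rw [← mul_pow]
    norm_num
  · rw [if_neg has]
    have hAT : T ≤ A := by rw [hA, hT]; exact Nat.pow_le_pow_right (by norm_num) (by omega)
    have he : (G.filter fun v₀ => sd (v₀.1 + X, v₀.2 + Y) i ≤ 3 * T + 3 * A) = ∅ := by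
      apply Finset.filter_false_of_mem
      intro v hv h1
      have h2 : max (v.1 + X - i.1).natAbs (v.2 + Y - i.2).natAbs ≤ 3 * T + 3 * A := h1
      have h3 : 512 * A < max (v.1 - i.1).natAbs (v.2 - i.2).natAbs := hG v hv
      omega
    rw [he]
    simp

/-- The weight of a disc at scale `s`. -/
private theorem DBL_w (a s : ℕ) :
    169 * (4 : ℝ) ^ s * (7 / (2 : ℝ) ^ s * (2 ^ a * (16 * 2 ^ a / (2 : ℝ) ^ s) ^ 3)) =
      169 * 28672 * 16 ^ a * (1 / 4) ^ s := by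
  have h1 : (4 : ℝ) ^ s = 2 ^ s * 2 ^ s := by rw [← mul_pow]; norm_num
  have h2 : (16 : ℝ) ^ a = 2 ^ a * 2 ^ a * 2 ^ a * 2 ^ a := by rw [← mul_pow, ← mul_pow, ← mul_pow]; norm_num
  have h3 : (1 / 4 : ℝ) ^ s = 1 / (2 ^ s * 2 ^ s) := by rw [div_pow, one_pow, h1]
  have h4 : (2 : ℝ) ^ s ≠ 0 := by positivity
  rw [h1, h2, h3]
  field_simp
  ring

/-- The geometric series. -/
private theorem DBL_geo (a L : ℕ) : ∑ s ∈ range L, (if a < s then (1 / 4 : ℝ) ^ s else 0) ≤ (1 / 4) ^ a := by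
  have h : ∀ s ∈ range L, (if a < s then (1 / 4 : ℝ) ^ s else 0) =
      (4 / 3) * (1 / 4 : ℝ) ^ (max s (a + 1)) - (4 / 3) * (1 / 4 : ℝ) ^ (max (s + 1) (a + 1)) := by
    intro s _
    by_cases hs : a < s
    · rw [if_pos hs, max_eq_left (by omega), max_eq_left (by omega), pow_succ]
      ring
    · rw [if_neg hs, max_eq_right (by omega), max_eq_right (by omega)]
      ring
  rw [Finset.sum_congr rfl h,
    Finset.sum_range_sub' (fun s => (4 / 3) * (1 / 4 : ℝ) ^ (max s (a + 1))) L, max_eq_right (by omega), pow_succ]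
  have h1 : (0 : ℝ) ≤ (1 / 4) ^ (max L (a + 1)) := by positivity
  have h2 : (0 : ℝ) ≤ (1 / 4) ^ a := by positivity
  linarith

/-- The bound for the scale `s` and one disc. -/
private noncomputable def DBL_B (a s : ℕ) : ℝ := 169 * 28672 * 16 ^ a * (if a < s then (1 / 4) ^ s else 0)

private theorem DBL_sumB (a L : ℕ) : ∑ s ∈ range L, DBL_B a s ≤ 169 * 28672 * 4 ^ a := by
  unfold DBL_B
  rw [← Finset.mul_sum]
  have h := mul_le_mul_of_nonneg_left (DBL_geo a L) (show (0 : ℝ) ≤ 169 * 28672 * 16 ^ a by positivity)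
  refine h.trans (le_of_eq ?_)
  rw [mul_assoc, ← mul_pow]
  norm_num

private theorem DBL_inner (G I : Finset V) (h : V → ℕ) (s : ℕ) (p q : ℤ) (hp : p ∈ Icc (-400 : ℤ) 400)
    (hq : q ∈ Icc (-400 : ℤ) 400) (hG : ∀ v₀ ∈ G, ∀ i ∈ I, 512 * 2 ^ h i < sd v₀ i) :
    ∑ v₀ ∈ G, 7 / (2 : ℝ) ^ s *
      ∑ i ∈ I.filter (fun i => sd (v₀.1 + 2 ^ s * p, v₀.2 + 2 ^ s * q) i ≤ 3 * 2 ^ s + 3 * 2 ^ h i),
        2 ^ h i * (16 * 2 ^ h i / (2 : ℝ) ^ s) ^ 3 ≤ ∑ i ∈ I, DBL_B (h i) s := by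
  have e : ∀ v₀ ∈ G, 7 / (2 : ℝ) ^ s *
      ∑ i ∈ I.filter (fun i => sd (v₀.1 + 2 ^ s * p, v₀.2 + 2 ^ s * q) i ≤ 3 * 2 ^ s + 3 * 2 ^ h i),
        2 ^ h i * (16 * 2 ^ h i / (2 : ℝ) ^ s) ^ 3 =
      ∑ i ∈ I, if sd (v₀.1 + 2 ^ s * p, v₀.2 + 2 ^ s * q) i ≤ 3 * 2 ^ s + 3 * 2 ^ h i then
        7 / (2 : ℝ) ^ s * (2 ^ h i * (16 * 2 ^ h i / (2 : ℝ) ^ s) ^ 3) else 0 := by
    intro v₀ _
    rw [Finset.mul_sum, Finset.sum_filter]
  rw [Finset.sum_congr rfl e, Finset.sum_comm]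
  apply Finset.sum_le_sum
  intro i hi
  rw [← Finset.sum_filter, Finset.sum_const, nsmul_eq_mul]
  have hc := DBL_cnt G i (h i) s p q hp hq (fun v₀ hv => hG v₀ hv i hi)
  have hw : (0 : ℝ) ≤ 7 / (2 : ℝ) ^ s * (2 ^ h i * (16 * 2 ^ h i / (2 : ℝ) ^ s) ^ 3) := by positivity
  refine (mul_le_mul_of_nonneg_right hc hw).trans (le_of_eq ?_)
  unfold DBL_B
  by_cases hs : h i < s
  · rw [if_pos hs, if_pos hs]
    exact DBL_w (h i) s
  · rw [if_neg hs, if_neg hs]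
    ring

theorem DBL : DBL_stmt := by
  have hc : #(Icc (-400 : ℤ) 400) = 801 := by rw [Int.card_Icc]; rfl
  refine ⟨641601 * (169 * 28672), by norm_num, fun L G I h hG => ?_⟩
  rw [Finset.sum_comm]
  have step : ∀ s ∈ range L, ∑ v₀ ∈ G, ∑ p ∈ Icc (-400 : ℤ) 400, ∑ q ∈ Icc (-400 : ℤ) 400, 7 / (2 : ℝ) ^ s *
      ∑ i ∈ I.filter (fun i => sd (v₀.1 + 2 ^ s * p, v₀.2 + 2 ^ s * q) i ≤ 3 * 2 ^ s + 3 * 2 ^ h i),
        2 ^ h i * (16 * 2 ^ h i / (2 : ℝ) ^ s) ^ 3 ≤ 641601 * ∑ i ∈ I, DBL_B (h i) s := by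
    intro s _
    rw [Finset.sum_comm]
    have h1 : ∀ p ∈ Icc (-400 : ℤ) 400, ∑ v₀ ∈ G, ∑ q ∈ Icc (-400 : ℤ) 400, 7 / (2 : ℝ) ^ s *
        ∑ i ∈ I.filter (fun i => sd (v₀.1 + 2 ^ s * p, v₀.2 + 2 ^ s * q) i ≤ 3 * 2 ^ s + 3 * 2 ^ h i),
          2 ^ h i * (16 * 2 ^ h i / (2 : ℝ) ^ s) ^ 3 ≤ 801 * ∑ i ∈ I, DBL_B (h i) s := by
      intro p hp
      rw [Finset.sum_comm]
      refine (Finset.sum_le_sum fun q hq => DBL_inner G I h s p q hp hq hG).trans (le_of_eq ?_)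
      rw [Finset.sum_const, hc, nsmul_eq_mul]
      norm_num
    refine (Finset.sum_le_sum h1).trans (le_of_eq ?_)
    rw [Finset.sum_const, hc, nsmul_eq_mul, ← mul_assoc]
    norm_num
  refine (Finset.sum_le_sum step).trans ?_
  rw [← Finset.mul_sum, Finset.sum_comm, mul_assoc]
  refine mul_le_mul_of_nonneg_left ?_ (by norm_num)
  rw [Finset.mul_sum]
  exact Finset.sum_le_sum fun i _ => DBL_sumB (h i) L

end TP.TW
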