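import Pool.Agent.helper25.TW.Spec

/-!
# Project TWO, row SPR

Union bound over the four rectangles of ANR; the crossings of these rectangles use only bricks at
distance at most `3 t + 1` from `x`.
-/

set_option autoImplicit false

namespace TP.TW

open DP MeasureTheory Finset

private instance SPR_prob : IsProbabilityMeasure P1 := by
  unfold P1
  infer_instance

private theorem SPR_sd (x v : V) : sd x (br v) ≤ sd x v + 1 := by
  have h := sd_triangle x v (br v)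
  have h2 := sd_br_le v
  omega

private theorem SPR_crs (o : Bool) (c : V → Bool) (k : Bool) (S : Finset V) (x : V) (t : ℕ) (a b d e : ℤ)
    (ha : x.1 - 3 * t ≤ a) (hb : b ≤ x.1 + 3 * t) (hd : x.2 - 3 * t ≤ d) (he : e ≤ x.2 + 3 * t)
    (h : crs o c k (til S) a b d e) :
    crs o c k (til (S.filter fun v => sd x v ≤ 3 * t + 1)) a b d e := by
  obtain ⟨u, v, huv, hc⟩ := h
  refine ⟨u, v, huv, Con.mono ?_ hc⟩
  rintro z ⟨⟨hz1, hz2⟩, hz3⟩
  refine ⟨⟨hz1, ?_⟩, hz3⟩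
  obtain ⟨g1, g2, g3, g4⟩ := hz1
  show br z ∈ S.filter fun v => sd x v ≤ 3 * t + 1
  rw [Finset.mem_filter]
  refine ⟨hz2, ?_⟩
  have h1 := SPR_sd x z
  have h2 : sd x z ≤ 3 * t := by
    show max (x.1 - z.1).natAbs (x.2 - z.2).natAbs ≤ 3 * t
    omega
  omega

theorem SPR (anr : ANR_stmt) (vsp : VSP_stmt) (_lcr : LCR_stmt) : SPR_stmt := by
  obtain ⟨C, hC, hv⟩ := vsp
  refine ⟨4 * C, by positivity, fun k S x t ht => ?_⟩
  obtain ⟨S', hS'⟩ : ∃ S' : Finset V, S' = S.filter fun v => sd x v ≤ 3 * t + 1 := ⟨_, rfl⟩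
  have hT : ∀ o a b d e, x.1 - 3 * t ≤ a → b ≤ x.1 + 3 * t → x.2 - 3 * t ≤ d → e ≤ x.2 + 3 * t →
      ∀ c, crs o c k (til S) a b d e → crs o c k (til S') a b d e := by
    intro o a b d e h1 h2 h3 h4 c h
    rw [hS']
    exact SPR_crs o c k S x t a b d e h1 h2 h3 h4 h
  have hsub : (Ev fun c => SR c k S x t) ⊆
      ((Ev fun c => crs true c k (til S') (x.1 - 3 * t) (x.1 + 3 * t) (x.2 + t) (x.2 + 3 * t)) ∪
      (Ev fun c => crs true c k (til S') (x.1 - 3 * t) (x.1 + 3 * t) (x.2 - 3 * t) (x.2 - t))) ∪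
      ((Ev fun c => crs false c k (til S') (x.1 + t) (x.1 + 3 * t) (x.2 - 3 * t) (x.2 + 3 * t)) ∪
      (Ev fun c => crs false c k (til S') (x.1 - 3 * t) (x.1 - t) (x.2 - 3 * t) (x.2 + 3 * t))) := by
    intro β hβ
    rcases anr (col β) k S x t ht hβ with h | h | h | h
    · exact Or.inl (Or.inl (hT true _ _ _ _ (by omega) (by omega) (by omega) (by omega) _ h))
    · exact Or.inl (Or.inr (hT true _ _ _ _ (by omega) (by omega) (by omega) (by omega) _ h))
    · exact Or.inr (Or.inl (hT false _ _ _ _ (by omega) (by omega) (by omega) (by omega) _ h))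
    · exact Or.inr (Or.inr (hT false _ _ _ _ (by omega) (by omega) (by omega) (by omega) _ h))
  have e1 := (hv k S' t (x.1 - 3 * t) (x.2 + t) ht).1
  have e2 := (hv k S' t (x.1 - 3 * t) (x.2 - 3 * t) ht).1
  have e3 := (hv k S' t (x.1 + t) (x.2 - 3 * t) ht).2
  have e4 := (hv k S' t (x.1 - 3 * t) (x.2 - 3 * t) ht).2
  rw [show x.1 - 3 * (t : ℤ) + 6 * t = x.1 + 3 * t by ring, show x.2 + (t : ℤ) + 2 * t = x.2 + 3 * t by ring] at e1
  rw [show x.1 - 3 * (t : ℤ) + 6 * t = x.1 + 3 * t by ring, show x.2 - 3 * (t : ℤ) + 2 * t = x.2 - t by ring] at e2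
  rw [show x.1 + (t : ℤ) + 2 * t = x.1 + 3 * t by ring, show x.2 - 3 * (t : ℤ) + 6 * t = x.2 + 3 * t by ring] at e3
  rw [show x.1 - 3 * (t : ℤ) + 2 * t = x.1 - t by ring, show x.2 - 3 * (t : ℤ) + 6 * t = x.2 + 3 * t by ring] at e4
  have hb : Pr (Ev fun c => SR c k S x t) ≤
      (Pr (Ev fun c => crs true c k (til S') (x.1 - 3 * t) (x.1 + 3 * t) (x.2 + t) (x.2 + 3 * t)) +
      Pr (Ev fun c => crs true c k (til S') (x.1 - 3 * t) (x.1 + 3 * t) (x.2 - 3 * t) (x.2 - t))) +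
      (Pr (Ev fun c => crs false c k (til S') (x.1 + t) (x.1 + 3 * t) (x.2 - 3 * t) (x.2 + 3 * t)) +
      Pr (Ev fun c => crs false c k (til S') (x.1 - 3 * t) (x.1 - t) (x.2 - 3 * t) (x.2 + 3 * t))) := by
    unfold Pr
    refine (measureReal_mono hsub (measure_ne_top _ _)).trans ?_
    refine (measureReal_union_le _ _).trans ?_
    exact add_le_add (measureReal_union_le _ _) (measureReal_union_le _ _)
  have hfin : 4 * C * #(S.filter fun v => sd x v ≤ 3 * t + 1) / (t : ℝ) ^ 2 =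
      (C * #S' / (t : ℝ) ^ 2 + C * #S' / (t : ℝ) ^ 2) + (C * #S' / (t : ℝ) ^ 2 + C * #S' / (t : ℝ) ^ 2) := by
    rw [hS']; ring
  rw [hfin]
  exact hb.trans (add_le_add (add_le_add e1 e2) (add_le_add e3 e4))

end TP.TW
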